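import Pool.Agent.Y790.TG.Fin
import Pool.Agent.Y790.TG.Cay

/-!
# The Graham–Häggkvist conjecture for trees with few leaves and Cayley graphs

For every `k` all but finitely many trees with at most `k` leaves have an `α`-labelling
(`Pool.Agent.Y790.TG.allTreeG`, the construction is described in `MP_5799c5_co/FewLeaves`).  Let `m` be the
number of edges of such a tree `T` and `S = {s, d s, …, d ^ (m - 1) s}` a subset of a group `Γ` with `m`
elements.  The translates of one copy of `T` decompose the Cayley graph of `Γ` with the connection set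
`S ∪ S⁻¹`, if this set has `2 m` elements, and the bipartite graph with the parts `Γ` and `Γ` in which `x` in
the first part is adjacent to `x t`, `t ∈ S`, in the second part.
-/

set_option autoImplicit false

namespace Pool.Agent.Results.MP_c367c1_co.FewLeaves

/-- `G` decomposes `H`: there is a family of injective maps `φ i` of the vertices of `G` to the vertices of
`H` such that edges go to edges and every edge of `H` is the image of exactly one edge of `G` under exactly
one of the maps. -/
def Decomposes {V W : Type} (G : SimpleGraph V) (H : SimpleGraph W) : Prop :=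
  ∃ (ι : Type) (φ : ι → V → W), (∀ i, Function.Injective (φ i)) ∧
    (∀ i u v, G.Adj u v → H.Adj (φ i u) (φ i v)) ∧
    ∀ e ∈ H.edgeSet, ∃! p : ι × G.edgeSet, Sym2.map (φ p.1) p.2.val = e

/-- For every `k` there is `N` such that every finite tree `T` with at most `k` leaves (vertices of degree
one), at least `N` vertices and `m` edges decomposes

* every Cayley graph (of a group `Γ`) with the connection set `S ∪ S⁻¹`, `S = {s, d s, …, d ^ (m - 1) s}`, if
  these are `2 m` different elements (so the graph is `2 m`-regular),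
* every bipartite graph with the parts `Γ` and `Γ` in which `x` is adjacent to `x s, x d s, …, x d ^ (m - 1) s`,
  if these are different elements (so the graph is `m`-regular; it is `K_{m,m}` if `d` generates `Γ` and has
  order `m`). -/
theorem result (k : ℕ) : ∃ N : ℕ, 2 ≤ N ∧ ∀ (V : Type) [Fintype V] (T : SimpleGraph V) (m : ℕ), T.IsTree →
    {x : V | (T.neighborSet x).ncard = 1}.ncard ≤ k → N ≤ Fintype.card V → T.edgeSet.ncard = m →
    (∀ (Γ : Type) [Group Γ] (d s : Γ) (H : SimpleGraph Γ),
      (∀ i j : ℕ, i < m → j < m → d ^ i * s = d ^ j * s → i = j) →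
      (∀ i j : ℕ, i < m → j < m → d ^ i * s ≠ (d ^ j * s)⁻¹) →
      (∀ x y : Γ, H.Adj x y ↔ ∃ i < m, y = x * (d ^ i * s) ∨ x = y * (d ^ i * s)) →
      Decomposes T H) ∧
    (∀ (Γ : Type) [Group Γ] (d s : Γ) (H : SimpleGraph (Γ ⊕ Γ)),
      (∀ i j : ℕ, i < m → j < m → d ^ i * s = d ^ j * s → i = j) →
      (∀ x y : Γ, H.Adj (Sum.inl x) (Sum.inr y) ↔ ∃ i < m, y = x * (d ^ i * s)) →
      (∀ x y : Γ, ¬ H.Adj (Sum.inl x) (Sum.inl y)) → (∀ x y : Γ, ¬ H.Adj (Sum.inr x) (Sum.inr y)) →
      Decomposes T H) := by
  obtain ⟨N, hN⟩ := Pool.Agent.Y790.TG.allTreeG k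
  refine ⟨max 2 N, le_max_left _ _, ?_⟩
  rintro V _ T m hT hk hV rfl
  have h2 : 2 ≤ Fintype.card V := (le_max_left _ _).trans hV
  have hA := hN V T hT hk ((le_max_right _ _).trans hV)
  exact ⟨Pool.Agent.Y790.TG.cay V T hT h2 hA, Pool.Agent.Y790.TG.biCay V T hT h2 hA⟩

end Pool.Agent.Results.MP_c367c1_co.FewLeaves
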